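import Pool.Agent.H12R3.VR.Stmts

set_option autoImplicit false

open Filter Topology

namespace Pool.Agent.H277R3.VR

theorem comp_inv (P : Fin 6 → ℝ) (h : H12VR.dt P ≠ 0) :
    H12VR.comp (H12VR.inv P) P = H12VR.id6 := by
  have h' : P 0 * P 4 - P 1 * P 3 ≠ 0 := h
  funext i
  fin_cases i
  · show P 4 / H12VR.dt P * P 0 + -P 1 / H12VR.dt P * P 3 = 1
    have e : P 4 / H12VR.dt P * P 0 + -P 1 / H12VR.dt P * P 3 = H12VR.dt P / H12VR.dt P := by
      unfold H12VR.dt; ring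
    rw [e, div_self h]
  · show P 4 / H12VR.dt P * P 1 + -P 1 / H12VR.dt P * P 4 = 0
    ring
  · show P 4 / H12VR.dt P * P 2 + -P 1 / H12VR.dt P * P 5 +
      (P 1 * P 5 - P 4 * P 2) / H12VR.dt P = 0
    ring
  · show -P 3 / H12VR.dt P * P 0 + P 0 / H12VR.dt P * P 3 = 0
    ring
  · show -P 3 / H12VR.dt P * P 1 + P 0 / H12VR.dt P * P 4 = 1
    have e : -P 3 / H12VR.dt P * P 1 + P 0 / H12VR.dt P * P 4 = H12VR.dt P / H12VR.dt P := by
      unfold H12VR.dt; ring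
    rw [e, div_self h]
  · show -P 3 / H12VR.dt P * P 2 + P 0 / H12VR.dt P * P 5 +
      (P 3 * P 2 - P 0 * P 5) / H12VR.dt P = 0
    ring

theorem continuous_comp (Q : Fin 6 → ℝ) : Continuous (fun P => H12VR.comp Q P) := by
  rw [continuous_pi_iff]
  intro i
  fin_cases i
  · show Continuous (fun P : Fin 6 → ℝ => Q 0 * P 0 + Q 1 * P 3); fun_prop
  · show Continuous (fun P : Fin 6 → ℝ => Q 0 * P 1 + Q 1 * P 4); fun_prop
  · show Continuous (fun P : Fin 6 → ℝ => Q 0 * P 2 + Q 1 * P 5 + Q 2); fun_prop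
  · show Continuous (fun P : Fin 6 → ℝ => Q 3 * P 0 + Q 4 * P 3); fun_prop
  · show Continuous (fun P : Fin 6 → ℝ => Q 3 * P 1 + Q 4 * P 4); fun_prop
  · show Continuous (fun P : Fin 6 → ℝ => Q 3 * P 2 + Q 4 * P 5 + Q 5); fun_prop

theorem taskCont : H12VR.TaskCont := by
  intro P u hP hu
  have h := ((continuous_comp (H12VR.inv P)).tendsto P).comp hu
  rw [comp_inv P hP] at h
  exact h

end Pool.Agent.H277R3.VR
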